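import Pool.Agent.N683.TE.E

/-!
# Ratios of Frobenius eigenvalues in the group generated by finitely many characters

Let `K` be a number field, `F` a finite extension of `ℚ_p`, `ρ : G_K → GL_n(F)` a continuous representation, and
`ψ_1, …, ψ_k : G_K → Fˣ` any continuous characters (for example the cyclotomic character, or the `p`-adic characters
attached to abelian varieties with complex multiplication).  We consider the finite places `v` of `K` with a Frobenius
element `g` such that for all eigenvalues `a`, `b` of `ρ(g)` the ratio `a / b` satisfies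
`(a / b) ^ d = ζ ψ_1(g) ^ m_1 … ψ_k(g) ^ m_k` with a root of unity `ζ` and integers `m_i`, which depend on `v`, `a` and
`b`; neither the `m_i` nor the order of `ζ` are assumed to be bounded (`d > 0` is fixed).

Theorem.  (1) If `ρ` is semisimple and the complement of this set of places has lower density zero, then there is an
open normal subgroup `U` of `G_K` such that `ρ(U)` is contained in the centre of `ρ(G_K)`.
(2) If `ρ` is absolutely irreducible, and its projective image is infinite (it is not scalar on any open subgroup), then
the places `v` such that for every Frobenius element `g` at `v` there is a ratio `a / b` of eigenvalues of `ρ(g)` with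
`(a / b) ^ (d l) ≠ (ψ_1(g) ^ m_1 … ψ_k(g) ^ m_k) ^ l` for all integers `m_i` and `l > 0` have positive lower density.

Nothing is assumed on the ramification of `ρ` and of the characters, and on the places above `p`.

For the conjecture of Fontaine and Mazur: an absolutely irreducible `ρ` with finite projective image which is de Rham
above `p` is of the form predicted by the conjecture (by Tate's lifting theorem it is the tensor product of a character
and a representation with finite image, and the character is of Hodge-Tate type, hence comes from abelian varieties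
with complex multiplication by Serre and Waldschmidt).  So the conjecture holds if the ratios of the Frobenius eigenvalues are,
at all places outside a set of lower density zero, in the group generated by the roots of unity and the values of
finitely many characters.  (This paragraph is not part of the formal proof.)

Proof.  (1) Integral powers of `ψ_i(g)` are as close to `1` as `ψ_i(g)`, uniformly in the exponent.  With the `p`-adic
logarithm one can take a uniform exponent `N` such that the eigenvalues of the adjoint representation at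
`g ^ (d N)` are products of integral powers of the `ψ_i(g) ^ N`; so its characteristic polynomial at `1 + s` differs
from `s ^ (n ^ 2)` by at most the maximum of the `|ψ_i(g) ^ N - 1|`, for all `|s| ≤ 1`.  This condition is closed, so it
holds for all `g` by the theorem of Chebotarev (from the library).  (2) Let `U` be a small open normal subgroup and `H`
the normal subgroup of all `u` in `U` with `ψ_i(u) = 1` for all `i`.  The adjoint representation is unipotent on `H`, so
every `ρ(h)` has a single eigenvalue, and `ρ(H)` is commutative (Lie algebras).  The scalar multiples of the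
`ρ(h)` which are unipotent form a group normalised by `ρ(G_K)`; by the theorem of Kolchin and semisimplicity it is
trivial, so `ρ(H)` consists of scalars.  (3) For `u` in `U` and `g` in `G_K` the commutator of `u` and `g` is in `H`,
so `ρ` maps it to a scalar with determinant `1` near `1`, hence to `1`.
-/

set_option autoImplicit false

namespace Pool.Agent.Results.MP_f68ac8_nt.CharacterRatios

open NumberField IsDedekindDomain Filter Matrix

/-- the absolute Galois group of the field `K`, with the Krull topology -/
abbrev AbsGal (K : Type) [Field K] : Type := Gal(AlgebraicClosure K/K)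

/-- `g` is an (arithmetic) Frobenius element at a maximal ideal `Q` of the ring of all algebraic
integers which lies above the finite place `v` of `K`. -/
def IsFrobenius {K : Type} [Field K] [NumberField K] (v : HeightOneSpectrum (𝓞 K))
    (g : AbsGal K) : Prop :=
  ∃ Q : Ideal (𝓞 (AlgebraicClosure K)), Q.IsMaximal ∧
    Q.comap (algebraMap (𝓞 K) (𝓞 (AlgebraicClosure K))) = v.asIdeal ∧
    ∀ x : 𝓞 (AlgebraicClosure K), g • x - x ^ Ideal.absNorm v.asIdeal ∈ Q

/-- the finite places of `K` whose norm is at most `x` -/
def placesUpTo (K : Type) [Field K] [NumberField K] (x : ℕ) : Set (HeightOneSpectrum (𝓞 K)) :=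
  {v | Ideal.absNorm v.asIdeal ≤ x}

/-- the complement of `P` has lower density zero -/
def SparseComplement {K : Type} [Field K] [NumberField K] (P : Set (HeightOneSpectrum (𝓞 K))) : Prop :=
  ∀ ε : ℝ, 0 < ε → ∃ᶠ x : ℕ in atTop, ((placesUpTo K x \ P).ncard : ℝ) ≤ ε * Nat.primeCounting x

/-- The set `P` of finite places of `K` has positive lower density: for some `δ > 0` and all large
`x` it contains at least `δ π(x)` places of norm at most `x`. -/
def PositiveLowerDensity {K : Type} [Field K] [NumberField K]
    (P : Set (HeightOneSpectrum (𝓞 K))) : Prop :=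
  ∃ δ : ℝ, 0 < δ ∧ ∀ᶠ x : ℕ in atTop, δ * Nat.primeCounting x ≤ ((placesUpTo K x ∩ P).ncard : ℝ)

section
variable {K F : Type} [Field K] [Field F] {n k : ℕ}

/-- the matrix of `g` -/
noncomputable def mat (ρ : AbsGal K →* GL (Fin n) F) (g : AbsGal K) : Matrix (Fin n) (Fin n) F :=
  (ρ g : GL (Fin n) F)

/-- `W` is a subrepresentation of `ρ`. -/
def Stable (ρ : AbsGal K →* GL (Fin n) F) (W : Submodule F (Fin n → F)) : Prop :=
  ∀ g, ∀ x ∈ W, mat ρ g *ᵥ x ∈ W

/-- `ρ` is semisimple (for example irreducible). -/
def Semisimple (ρ : AbsGal K →* GL (Fin n) F) : Prop :=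
  ∀ W, Stable ρ W → ∃ W', Stable ρ W' ∧ IsCompl W W'

/-- `ρ` is absolutely irreducible: over an algebraic closure of `F` every stable subspace is zero or everything. -/
def AbsolutelyIrreducible (ρ : AbsGal K →* GL (Fin n) F) : Prop :=
  ∀ W : Submodule (AlgebraicClosure F) (Fin n → AlgebraicClosure F),
    (∀ g, ∀ x ∈ W, (mat ρ g).map (algebraMap F (AlgebraicClosure F)) *ᵥ x ∈ W) → W = ⊥ ∨ W = ⊤

/-- `ρ` is scalar on an open normal subgroup: its projective image is finite. -/
def PotentiallyScalar (ρ : AbsGal K →* GL (Fin n) F) : Prop :=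
  ∃ U : Subgroup (AbsGal K), U.Normal ∧ IsOpen (U : Set (AbsGal K)) ∧ ∀ u ∈ U, ∃ c : F, mat ρ u = c • 1

/-- For some integers `m i` and some `l > 0`: `(a / b) ^ (d l) = (ψ_1(g) ^ m_1 … ψ_k(g) ^ m_k) ^ l`; that is,
`(a / b) ^ d` is a root of unity times `ψ_1(g) ^ m_1 … ψ_k(g) ^ m_k`. -/
def InGroup (ψ : Fin k → AbsGal K →* Fˣ) (d : ℕ) (g : AbsGal K) (a b : AlgebraicClosure F) : Prop :=
  ∃ m : Fin k → ℤ, ∃ l : ℕ, 0 < l ∧
    a ^ (d * l) = algebraMap F (AlgebraicClosure F) (∏ i, (ψ i g : F) ^ m i) ^ l * b ^ (d * l)

/-- This holds for all eigenvalues `a`, `b` of `ρ(g)`, in an algebraic closure of `F`. -/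
def AllRatiosInGroup (ψ : Fin k → AbsGal K →* Fˣ) (d : ℕ) (ρ : AbsGal K →* GL (Fin n) F)
    (g : AbsGal K) : Prop :=
  ∀ a b : AlgebraicClosure F, ((mat ρ g).charpoly.map (algebraMap F (AlgebraicClosure F))).IsRoot a →
    ((mat ρ g).charpoly.map (algebraMap F (AlgebraicClosure F))).IsRoot b → InGroup ψ d g a b

end

/-- the first part -/
theorem central {K : Type} [Field K] [NumberField K] (p : ℕ) [Fact p.Prime] {F : Type}
    [NormedField F] [NormedAlgebra ℚ_[p] F] [FiniteDimensional ℚ_[p] F] {n k : ℕ}
    (ρ : AbsGal K →* GL (Fin n) F) (hρ : Continuous ρ) (hss : Semisimple ρ)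
    (ψ : Fin k → AbsGal K →* Fˣ) (hψ : ∀ i, Continuous (ψ i)) (d : ℕ) (hd : 0 < d)
    (h : SparseComplement {v : HeightOneSpectrum (𝓞 K) |
      ∃ g, IsFrobenius v g ∧ AllRatiosInGroup ψ d ρ g}) :
    ∃ U : Subgroup (AbsGal K), U.Normal ∧ IsOpen (U : Set (AbsGal K)) ∧
      ∀ u ∈ U, ∀ g, ρ u * ρ g = ρ g * ρ u := by
  obtain ⟨U, hU⟩ := Pool.Agent.N683.TE.main_c p ((Units.coeHom _).comp ρ)
    (Units.continuous_val.comp hρ) hss (fun i => (Units.coeHom F).comp (ψ i))
    (fun i => Units.continuous_val.comp (hψ i)) hd
    {v : HeightOneSpectrum (𝓞 K) | ∃ g, IsFrobenius v g ∧ AllRatiosInGroup ψ d ρ g} (by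
      intro ε hε
      refine ((h ε hε).and_eventually (Nat.tendsto_primeCounting.eventually_gt_atTop 0)).mono ?_
      rintro x ⟨h1, h2⟩
      have h3 : (0 : ℝ) < (Nat.primeCounting x : ℝ) := by exact_mod_cast h2
      unfold Pool.Agent.W401.Cheb.dens
      rw [div_le_iff₀ h3]
      exact h1) (fun v hv => hv)
  exact ⟨U.toSubgroup, U.isNormal', U.isOpen', fun u hu g => Units.ext (hU u hu g)⟩

/-- an absolutely irreducible representation is semisimple -/
theorem semisimple_of_irreducible {K F : Type} [Field K] [Field F] {n : ℕ}
    (ρ : AbsGal K →* GL (Fin n) F) (h : AbsolutelyIrreducible ρ) : Semisimple ρ := by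
  intro W hW
  set f := algebraMap F (AlgebraicClosure F) with hf
  have hmap : ∀ (M : Matrix (Fin n) (Fin n) F) (w : Fin n → F), (M.map f) *ᵥ (fun i => f (w i)) =
      fun i => f ((M *ᵥ w) i) := by
    intro M w
    funext i
    simp only [Matrix.mulVec, dotProduct, map_sum, map_mul]
    rfl
  -- the span over the algebraic closure
  let W' : Submodule (AlgebraicClosure F) (Fin n → AlgebraicClosure F) :=
    Submodule.span _ ((fun w : Fin n → F => fun i => f (w i)) '' (W : Set (Fin n → F)))
  have hst : ∀ g, ∀ x ∈ W', (mat ρ g).map f *ᵥ x ∈ W' := by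
    intro g x hx
    induction hx using Submodule.span_induction with
    | mem x hx =>
      obtain ⟨w, hw, rfl⟩ := hx
      simp only
      rw [hmap]
      exact Submodule.subset_span ⟨_, hW g w hw, rfl⟩
    | zero =>
      rw [Matrix.mulVec_zero]
      exact W'.zero_mem
    | add x y _ _ hx hy =>
      rw [Matrix.mulVec_add]
      exact W'.add_mem hx hy
    | smul c x _ hx =>
      rw [Matrix.mulVec_smul]
      exact W'.smul_mem c hx
  rcases h W' hst with h1 | h1
  · refine ⟨⊤, fun g x _ => Submodule.mem_top, ?_⟩
    have h2 : W = ⊥ := by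
      rw [eq_bot_iff]
      intro w hw
      have h3 : (fun i => f (w i)) ∈ W' := Submodule.subset_span ⟨w, hw, rfl⟩
      rw [h1, Submodule.mem_bot] at h3
      rw [Submodule.mem_bot]
      funext i
      exact (map_eq_zero f).1 (congrFun h3 i)
    rw [h2]
    exact isCompl_bot_top
  · refine ⟨⊥, fun g x hx => ?_, ?_⟩
    · rw [Submodule.mem_bot] at hx ⊢
      rw [hx, Matrix.mulVec_zero]
    have h2 : W = ⊤ := by
      by_contra hne
      obtain ⟨φ, hφ0, hφ⟩ := Submodule.exists_le_ker_of_lt_top W (lt_top_iff_ne_top.2 hne)
      -- extend the functional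
      let c : Fin n → F := fun i => φ (Pi.single i 1)
      have hc : ∀ w : Fin n → F, φ w = ∑ i, c i * w i := by
        intro w
        conv_lhs => rw [← Finset.univ_sum_single w]
        rw [map_sum]
        refine Finset.sum_congr rfl fun i _ => ?_
        have h4 : (Pi.single i (w i) : Fin n → F) = w i • Pi.single i 1 := by
          rw [← Pi.single_smul, smul_eq_mul, mul_one]
        rw [h4, map_smul, smul_eq_mul, mul_comm]
      have h5 : ∀ x ∈ W', ∑ i, f (c i) * x i = 0 := by
        intro x hx
        induction hx using Submodule.span_induction with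
        | mem x hx =>
          obtain ⟨w, hw, rfl⟩ := hx
          have h6 : φ w = 0 := hφ hw
          rw [hc] at h6
          have h7 := congrArg f h6
          rw [map_sum, map_zero] at h7
          simpa using h7
        | zero => simp
        | add x y _ _ hx hy =>
          simp only [Pi.add_apply, mul_add, Finset.sum_add_distrib]
          rw [hx, hy, add_zero]
        | smul a x _ hx =>
          have h6 : ∀ i, f (c i) * (a • x) i = a * (f (c i) * x i) := fun i => by
            rw [Pi.smul_apply, smul_eq_mul]
            ring
          rw [Finset.sum_congr rfl fun i _ => h6 i, ← Finset.mul_sum, hx, mul_zero]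
      apply hφ0
      refine LinearMap.ext fun w => ?_
      rw [hc, LinearMap.zero_apply]
      apply f.injective
      have h6 := h5 (fun i => f (w i)) (by
        rw [h1]
        trivial)
      rw [map_sum, map_zero]
      simpa using h6
    rw [h2]
    exact isCompl_top_bot

/-- **Ratios of Frobenius eigenvalues in the group generated by finitely many characters.**

Let `K` be a number field, `p` a prime number, `F` a finite extension of `ℚ_p` with the absolute value which extends
the `p`-adic one, `ρ : G_K → GL_n(F)` a continuous representation, `ψ_1, …, ψ_k : G_K → Fˣ` continuous characters and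
`d > 0`.

(1) Let `ρ` be semisimple, and suppose that for all finite places `v` outside a set of lower density zero there is a
Frobenius element `g` at `v` such that `(a / b) ^ d` is a root of unity times
`ψ_1(g) ^ m_1 … ψ_k(g) ^ m_k`, with integers `m_i`, for all eigenvalues `a`, `b` of `ρ(g)`.
Then `ρ(U)` is contained in the centre of `ρ(G_K)` for an open normal subgroup `U` of `G_K`.

(2) Let `ρ` be absolutely irreducible and not potentially scalar. Then the places `v` such that for every Frobenius
element `g` at `v` this condition fails for some pair of eigenvalues of `ρ(g)` have positive lower density. -/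
theorem result {K : Type} [Field K] [NumberField K] (p : ℕ) [Fact p.Prime] {F : Type}
    [NormedField F] [NormedAlgebra ℚ_[p] F] [FiniteDimensional ℚ_[p] F] {n k : ℕ}
    (ρ : AbsGal K →* GL (Fin n) F) (hρ : Continuous ρ)
    (ψ : Fin k → AbsGal K →* Fˣ) (hψ : ∀ i, Continuous (ψ i)) (d : ℕ) (hd : 0 < d) :
    (Semisimple ρ → SparseComplement {v : HeightOneSpectrum (𝓞 K) |
        ∃ g, IsFrobenius v g ∧ AllRatiosInGroup ψ d ρ g} →
      ∃ U : Subgroup (AbsGal K), U.Normal ∧ IsOpen (U : Set (AbsGal K)) ∧
        ∀ u ∈ U, ∀ g, ρ u * ρ g = ρ g * ρ u) ∧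
    (AbsolutelyIrreducible ρ → ¬ PotentiallyScalar ρ →
      PositiveLowerDensity {v : HeightOneSpectrum (𝓞 K) |
        ∀ g, IsFrobenius v g → ¬ AllRatiosInGroup ψ d ρ g}) := by
  refine ⟨fun hss h => central p ρ hρ hss ψ hψ d hd h, fun hirr hns => ?_⟩
  by_contra hcon
  apply hns
  obtain ⟨U, hUn, hUo, hU⟩ := central p ρ hρ (semisimple_of_irreducible ρ hirr) ψ hψ d hd (by
    intro ε hε
    have h1 : ¬ ∀ᶠ x : ℕ in atTop, ε * Nat.primeCounting x ≤ ((placesUpTo K x ∩
        {v : HeightOneSpectrum (𝓞 K) | ∀ g, IsFrobenius v g → ¬ AllRatiosInGroup ψ d ρ g}).ncard : ℝ) :=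
      fun h => hcon ⟨ε, hε, h⟩
    refine (Filter.not_eventually.1 h1).mono ?_
    intro x hx
    push Not at hx
    refine le_trans (le_of_eq ?_) hx.le
    congr 2
    ext v
    constructor
    · rintro ⟨h2, h3⟩
      refine ⟨h2, fun g hg h4 => h3 ⟨g, hg, h4⟩⟩
    · rintro ⟨h2, h3⟩
      refine ⟨h2, ?_⟩
      rintro ⟨g, hg, h4⟩
      exact h3 g hg h4)
  refine ⟨U, hUn, hUo, fun u hu => ?_⟩
  exact Pool.Agent.N683.TE.schur ((Units.coeHom _).comp ρ) hirr (fun g => congrArg Units.val (hU u hu g))

end Pool.Agent.Results.MP_f68ac8_nt.CharacterRatios
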