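import Pool.Agent.N183.FE.Fin

/-!
# Representations with few Frobenius eigenvalues

Let `K` be a number field, `F` a finite extension of `ℚ_p` and `ρ : G_K → GL_n(F)` a continuous
representation. Let `P` be a set of finite places of `K` of upper density one: the complement of `P`
has lower density zero.

Theorem. Suppose that for every `v ∈ P`, and some Frobenius element `g` at `v`, some power of `ρ(g)`
with positive exponent has at most `k` different eigenvalues; in other words, the eigenvalues of
Frobenius at `v` are at most `k` numbers up to multiplication by roots of unity. Then there is an open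
normal subgroup `U` of `G_K` with the following property. If `W_1, …, W_s` are pairwise non-isomorphic
irreducible constituents of the restriction of `ρ` to `U`, over the algebraic closure of `F`, then
`dim W_i ≤ 2^(k-1)`, and `(dim W_1)² + … + (dim W_s)² ≤ (4^k - 1)/3`.

So the image of `U` is in essence contained in an algebraic group the size of which is bounded in
terms of `k` only, whatever the dimension `n` of `ρ` is: if `ρ` is semisimple (for example irreducible)
then the algebra generated by the matrices `ρ(u)`, `u ∈ U`, is of dimension at most `(4^k - 1)/3`.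
Nothing is assumed on the ramification of `ρ` and on the places above `p`; the exponents need not be
bounded, and the multiplicities of the eigenvalues are arbitrary.

Consequences for the conjecture of Fontaine and Mazur (these deductions are not part of the formal
proof). Let `V` be an irreducible representation of `G_K` which is de Rham above `p`, with at most `k`
Frobenius eigenvalues up to roots of unity, at a set of places of upper density one.

* `k = 1`: `V` becomes isotypic of type `χ`, a character, over a finite extension of `K`, and the
  conjecture is true for `V`.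
* `k = 2`: the constituents over `U` are conjugate under `G_K`, so they have the same dimension `d`, and
  `s d² ≤ 5`. If `d = 1` then `V` is potentially abelian and the conjecture is true for `V` (Serre,
  Waldschmidt, theory of complex multiplication). Otherwise `d = 2`, `s = 1`: the restriction of `V` to
  `U` is isotypic of type `W`, `dim W = 2`. Then `W` extends to a projective representation of `G_K`,
  which can be lifted (Tate), and `V` is the tensor product of a two-dimensional representation of `G_K`
  and of a representation with finite image. So in this case the conjecture, in all dimensions, follows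
  from the conjecture in dimension two, over the same field; for `K = ℚ` this is known in most cases
  (Kisin, Emerton, Pan and others).
* In general the conjecture for such `V`, of any dimension, follows from the conjecture for
  representations of dimension at most `2^(k-1)` over finite extensions of `K`.

The hypothesis cannot be weakened to sets `P` of positive density: if `V` is induced from a subgroup of
index two then half of the Frobenius elements have fewer eigenvalues than the general one.

Proof. (1) The number of eigenvalues of a matrix `A` is at most `k` if and only if the determinants of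
the Hankel matrices `(tr A^(i+j))`, of size `d > k`, are zero. This is a closed condition, preserved by
polynomials in `A`; and it descends from `A^m` to `A` if `A` is near 1, since `A` is then in the closed
algebra generated by its logarithm. So by the theorem of Chebotarev (from the library) all elements of
an open normal subgroup `U` satisfy it, and so do all elements of the Lie algebra of `ρ(U)`, and (by
vanishing of polynomials) the elements of its extension `𝔤` to the algebraic closure. (2) The
`U`-stable subspaces are the `𝔤`-stable subspaces. (3) Let `𝔤` act irreducibly on `W_i`. By the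
criterion of Cartan the trace zero part is semisimple; a general element of a Cartan subalgebra
separates the weights of all `W_i`, so there are at most `k`. `W_i` is generated from the highest weight
by operators in root spaces (which are one-dimensional), so by the nonzero monomials in them, and these
monomials correspond to descending chains of weights: so `dim W_i ≤ 2^(w_i - 1)`, where `w_i` is the
number of weights of `W_i`. Non-isomorphic modules have different highest weights, and `w_i` is at most
the position of the highest weight of `W_i` in the ordered set of all weights; the sum over all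
positions is `1 + 4 + … + 4^(k-1)`.
-/

set_option autoImplicit false

namespace Pool.Agent.Results.MP_f68ac8_nt.FewEigenvalues

open NumberField IsDedekindDomain Filter Matrix Module

/-- the absolute Galois group of the field `K`, with the Krull topology -/
abbrev AbsGal (K : Type) [Field K] : Type := Gal(AlgebraicClosure K/K)

/-- `g` is an (arithmetic) Frobenius element at a maximal ideal `Q` of the ring of all algebraic
integers which lies above the finite place `v` of `K`. -/
def IsFrobenius {K : Type} [Field K] [NumberField K] (v : HeightOneSpectrum (𝓞 K))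
    (g : AbsGal K) : Prop :=
  ∃ Q : Ideal (𝓞 (AlgebraicClosure K)), Q.IsMaximal ∧
    Q.comap (algebraMap (𝓞 K) (𝓞 (AlgebraicClosure K))) = v.asIdeal ∧
    ∀ x : 𝓞 (AlgebraicClosure K), g • x - x ^ Ideal.absNorm v.asIdeal ∈ Q

/-- the finite places of `K` whose norm is at most `x` -/
def placesUpTo (K : Type) [Field K] [NumberField K] (x : ℕ) : Set (HeightOneSpectrum (𝓞 K)) :=
  {v | Ideal.absNorm v.asIdeal ≤ x}

/-- The set `P` has upper density one: for all `ε > 0` there are arbitrarily large `x` for which at
most `ε π(x)` places of norm at most `x` are not in `P`. -/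
def UpperDensityOne {K : Type} [Field K] [NumberField K] (P : Set (HeightOneSpectrum (𝓞 K))) :
    Prop :=
  ∀ ε : ℝ, 0 < ε → ∃ᶠ x : ℕ in atTop, ((placesUpTo K x \ P).ncard : ℝ) ≤ ε * Nat.primeCounting x

/-- the space on which the representation acts, over the algebraic closure of `F` -/
abbrev Vec (F : Type) [Field F] (n : ℕ) : Type := Fin n → AlgebraicClosure F

/-- the linear subspaces of this space -/
abbrev Sub (F : Type) [Field F] (n : ℕ) : Type := Submodule (AlgebraicClosure F) (Vec F n)

section
variable {K F : Type} [Field K] [Field F] {n : ℕ}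

/-- the matrix of `g`, over the algebraic closure of `F` -/
noncomputable def mat (ρ : AbsGal K →* GL (Fin n) F) (g : AbsGal K) :
    Matrix (Fin n) (Fin n) (AlgebraicClosure F) :=
  ((ρ g : GL (Fin n) F) : Matrix (Fin n) (Fin n) F).map (algebraMap F (AlgebraicClosure F))

/-- Some power of `ρ(g)`, with positive exponent, has at most `k` different eigenvalues. -/
def FewEig (k : ℕ) (ρ : AbsGal K →* GL (Fin n) F) (g : AbsGal K) : Prop :=
  ∃ m : ℕ, 0 < m ∧ ∀ s : Finset (AlgebraicClosure F),
    (∀ a ∈ s, (mat ρ g ^ m).charpoly.IsRoot a) → s.card ≤ k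

/-- `W` is stable under `U`. -/
def Stable (ρ : AbsGal K →* GL (Fin n) F) (U : Subgroup (AbsGal K)) (W : Sub F n) : Prop :=
  ∀ u ∈ U, ∀ w ∈ W, mat ρ u *ᵥ w ∈ W

/-- The quotient `B/A` is an irreducible constituent of the restriction of `ρ` to `U`, over the
algebraic closure. -/
structure IsConstituent (ρ : AbsGal K →* GL (Fin n) F) (U : Subgroup (AbsGal K))
    (A B : Sub F n) : Prop where
  lt : A < B
  left : Stable ρ U A
  right : Stable ρ U B
  irreducible : ∀ W, Stable ρ U W → A ≤ W → W ≤ B → W = A ∨ W = B

/-- The subquotients `B/A` and `B'/A'` are isomorphic as representations of `U`: a linear map `f` of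
the whole space induces an isomorphism `B/A → B'/A'` which commutes with `U`. -/
def Isomorphic (ρ : AbsGal K →* GL (Fin n) F) (U : Subgroup (AbsGal K)) (A B A' B' : Sub F n) :
    Prop :=
  ∃ f : Vec F n →ₗ[AlgebraicClosure F] Vec F n,
    (∀ w ∈ B, f w ∈ B' ∧ (f w ∈ A' ↔ w ∈ A)) ∧ (∀ w' ∈ B', ∃ w ∈ B, f w - w' ∈ A') ∧
    ∀ u ∈ U, ∀ w ∈ B, f (mat ρ u *ᵥ w) - mat ρ u *ᵥ f w ∈ A'

/-- the dimension of `B/A`, for `A ≤ B` -/
noncomputable def dimQ (A B : Sub F n) : ℕ :=
  finrank (AlgebraicClosure F) B - finrank (AlgebraicClosure F) A

theorem isomorphic_of {ρ : AbsGal K →* GL (Fin n) F} {U : Subgroup (AbsGal K)}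
    {A B A' B' : Sub F n} (hB : Stable ρ U B) (hB' : Stable ρ U B')
    (h : Pool.Agent.N183.FE.IsoS ((Units.coeHom _).comp ρ) U A B A' B') :
    Isomorphic ρ U A B A' B' := by
  obtain ⟨e, he⟩ := h
  obtain ⟨g, hg⟩ := Module.projective_lifting_property (A'.comap B'.subtype).mkQ
    (e.toLinearMap ∘ₗ (A.comap B.subtype).mkQ) (Submodule.mkQ_surjective _)
  have hg' : ∀ w : B, (A'.comap B'.subtype).mkQ (g w) = e ((A.comap B.subtype).mkQ w) :=
    fun w => LinearMap.congr_fun hg w
  obtain ⟨f, hf⟩ := LinearMap.exists_extend (B'.subtype ∘ₗ g)
  have hf' : ∀ w : B, f w = g w := fun w => LinearMap.congr_fun hf w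
  have hz : ∀ w : B', (A'.comap B'.subtype).mkQ w = 0 ↔ (w : Vec F n) ∈ A' := fun w => by
    rw [Submodule.mkQ_apply, Submodule.Quotient.mk_eq_zero]
    rfl
  have hz' : ∀ w : B, (A.comap B.subtype).mkQ w = 0 ↔ (w : Vec F n) ∈ A := fun w => by
    rw [Submodule.mkQ_apply, Submodule.Quotient.mk_eq_zero]
    rfl
  refine ⟨f, fun w hw => ?_, fun w' hw' => ?_, fun u hu w hw => ?_⟩
  · rw [hf' ⟨w, hw⟩]
    refine ⟨(g ⟨w, hw⟩).2, ?_⟩
    rw [← hz, hg', LinearEquiv.map_eq_zero_iff, hz']
  · obtain ⟨w, hw⟩ := Submodule.mkQ_surjective _ (e.symm ((A'.comap B'.subtype).mkQ ⟨w', hw'⟩))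
    refine ⟨w, w.2, ?_⟩
    have h1 : (A'.comap B'.subtype).mkQ (g w - ⟨w', hw'⟩) = 0 := by
      rw [map_sub, hg', hw, LinearEquiv.apply_symm_apply, sub_self]
    rw [hf' w]
    exact (hz _).1 h1
  · have h1 := he u hu ⟨w, hw⟩ ⟨mat ρ u *ᵥ w, hB u hu w hw⟩ (g ⟨w, hw⟩)
      ⟨mat ρ u *ᵥ (g ⟨w, hw⟩ : Vec F n), hB' u hu _ (g ⟨w, hw⟩).2⟩ rfl rfl (hg' _).symm
    have h2 : (A'.comap B'.subtype).mkQ (g ⟨mat ρ u *ᵥ w, hB u hu w hw⟩ -
        ⟨mat ρ u *ᵥ (g ⟨w, hw⟩ : Vec F n), hB' u hu _ (g ⟨w, hw⟩).2⟩) = 0 := by
      rw [map_sub, hg', h1, sub_self]
    rw [hf' ⟨w, hw⟩, hf' ⟨mat ρ u *ᵥ w, hB u hu w hw⟩]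
    exact (hz _).1 h2

end

/-- **Representations with few Frobenius eigenvalues.**

Let `K` be a number field, `p` a prime number, `F` a finite extension of `ℚ_p` with the absolute value
which extends the `p`-adic one, `ρ : G_K → GL_n(F)` a continuous representation and `P` a set of finite
places of `K` such that for all `ε > 0` there are arbitrarily large `x` for which at most `ε π(x)`
places of norm at most `x` are not in `P`. Suppose that for every `v ∈ P` there is a Frobenius element
`g` at `v` such that some power of `ρ(g)`, with positive exponent, has at most `k` different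
eigenvalues. Then there is an open normal subgroup `U` of `G_K` such that for all pairwise
non-isomorphic irreducible constituents `W_i = B_i/A_i` of `ρ` restricted to `U`, over the algebraic
closure, `dim W_i ≤ 2^(k-1)` for each `i` and `3 ∑ (dim W_i)² + 1 ≤ 4^k`. -/
theorem result {K : Type} [Field K] [NumberField K] (p : ℕ) [Fact p.Prime] {F : Type}
    [NormedField F] [NormedAlgebra ℚ_[p] F] [FiniteDimensional ℚ_[p] F] {n : ℕ}
    (ρ : AbsGal K →* GL (Fin n) F) (hρ : Continuous ρ) (k : ℕ)
    (P : Set (HeightOneSpectrum (𝓞 K))) (hP : UpperDensityOne P)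
    (heig : ∀ v ∈ P, ∃ g, IsFrobenius v g ∧ FewEig k ρ g) :
    ∃ U : Subgroup (AbsGal K), U.Normal ∧ IsOpen (U : Set (AbsGal K)) ∧
      ∀ (s : ℕ) (A B : Fin s → Sub F n), (∀ i, IsConstituent ρ U (A i) (B i)) →
        (∀ i j, i ≠ j → ¬ Isomorphic ρ U (A i) (B i) (A j) (B j)) →
        (∀ i, dimQ (A i) (B i) ≤ 2 ^ (k - 1)) ∧ 3 * ∑ i, dimQ (A i) (B i) ^ 2 + 1 ≤ 4 ^ k := by
  have hcharF : CharZero F := charZero_of_injective_algebraMap (algebraMap ℚ_[p] F).injective
  obtain ⟨U, hU⟩ := Pool.Agent.N183.FE.main3 p ((Units.coeHom _).comp ρ)
    (Units.continuous_val.comp hρ) P (by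
      intro ε hε
      refine ((hP ε hε).and_eventually (Nat.tendsto_primeCounting.eventually_gt_atTop 0)).mono ?_
      rintro x ⟨h1, h3⟩
      have h4 : (0 : ℝ) < (Nat.primeCounting x : ℝ) := by exact_mod_cast h3
      unfold Pool.Agent.W401.Cheb.dens
      rw [div_le_iff₀ h4]
      exact h1) (k := k) (by
      intro v hv
      obtain ⟨g, hg, m, hm, h⟩ := heig v hv
      refine ⟨g, hg, m, hm, Pool.Agent.N183.FE.fh_of_roots Pool.Agent.N42.FE.HK ?_⟩
      rw [map_pow]
      exact h)
  refine ⟨U.toSubgroup, U.isNormal', U.isOpen', fun s A B hAB hni => ?_⟩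
  obtain ⟨h1, h2⟩ := hU s A B (fun i => (hAB i).lt) (fun i => (hAB i).left)
    (fun i => (hAB i).right) (fun i W hW => (hAB i).irreducible W hW)
    (fun i j hij h => hni i j hij (isomorphic_of (hAB i).right (hAB j).right h))
  exact ⟨fun i => Nat.sub_le_iff_le_add'.2 (h1 i), h2⟩

end Pool.Agent.Results.MP_f68ac8_nt.FewEigenvalues
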