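import Pool.Agent.N829.QD.Fin
import Pool.Agent.N829.QD.Alg
import Pool.Agent.N829.QD.Hig
import Pool.Agent.N829.QD.Sem
import Pool.Agent.N829.QD.Low
import Pool.Agent.N829.QD.Chg
import Pool.Agent.N829.QD.Pen
import Pool.Agent.N829.QD.Trn
import Pool.Agent.N829.QD.Cnt

/-!
# Tame representations of every dimension for most quadruples of primes

For a prime `p` and four primes `q ≡ 1 mod p` the Galois group of the maximal `p`-extension of `ℚ`
unramified outside these primes is infinite (Golod and Shafarevich).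

Theorem. Let `n ≥ 0` and `δ > 0`. For all large primes `p` the following holds. For all primes
`q₁ ≡ 1 mod p` but a proportion of at most `δ`, for all primes `q₂ ≡ 1 mod p` but a proportion of at
most `δ`, and so on for `q₃` and `q₄`, every continuous representation `Gal(ℚbar/ℚ) → GL_n(A)`, where
`A` is any Noetherian local ring of residue characteristic `p`, which is unramified outside
`q₁, q₂, q₃, q₄` and primes `≢ 0, 1 mod p`, and trivial modulo `p` on the inertia groups, has finite
image, and is trivial if `p ^ 2 a = 0` implies `p a = 0` in `A` (for example if `A` is the ring of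
integers of a finite extension of `ℚ_p`).

More precisely, for every `n` there is an integral polynomial `P` in the linking numbers `λ i j` and
the levels `u i`, which does not depend on `p` and does not vanish at the point `(L0, U0)` where
`λ i (i+1) = 1`, `u i = -1` and all other `λ i j` are zero, such that `P(λ, u) ≠ 0` in `ℤ/p` implies
the statement for the representations trivial modulo `p ^ m` on inertia which are ramified at four
primes with `p ^ m ∥ q - 1` (and primes with `p ^ m ∤ q - 1`), for all `p > max (n, 2)`, `m ≥ 1`.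

Proof. By `AllDimensions` it suffices that there are no nonzero `n × n` matrices `M i` over a field of
characteristic `p` with `[∑ λ i j M j, M i] = u i M i`. Let `f` be the functional on words in four
letters given by the traces of the products of the `M i`. It is invariant under rotation, and
`∑ λ i j (f(j i w) - f(i j w)) = u i f(i w)`. At the point `(L0, U0)` over a field of characteristic
zero all such functionals vanish on nonempty words: in the lowest degree `f` depends only on a pair of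
cyclic words, in the letters `0, 2` and in the letters `1, 3`, and the relations of the next degree,
summed over the rotations of such words, are a triangular system of equations. The relations in
the highest degree which is considered are homogeneous, and for generic `λ` they are equivalent to those
for `L0` (the pencil of alternating forms which vanish on the relations contains two forms of rank two),
so that the dimension of the space of solutions is upper semicontinuous and this holds for generic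
`(λ, u)` too. So all traces vanish and the `M i` are zero. By Schwartz-Zippel the proportion of the
systems with `P = 0` is `O(1/p)`, and the linking numbers of a new prime with the given ones are
equidistributed up to scaling (`Pool.Agent.Q202.QT.densN`, Chebotarev).

Written by helper829 with helpers 123 (Schwartz-Zippel), 141 (semicontinuity), 348 (cyclic words), 401
(traces), 697 (change of variables), 966 (pencils, reduction); equidistribution: helper202.
-/

set_option autoImplicit false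

open NumberField IsLocalRing

namespace Pool.Agent.Results.MP_f68ac8_nt.FourPrimes

open Finset Filter
open Pool.Agent.Q202.RT Pool.Agent.Q202.QT
open Pool.Agent.N829.QD
open Pool.Agent.W569.TG (lk)

/-- the absolute Galois group of `ℚ`, with the Krull topology -/
abbrev AbsGal : Type := Gal(AlgebraicClosure ℚ/ℚ)

/-- `τ` lies in the inertia group at the ideal `P` of the ring of all algebraic integers. -/
def InInertia (P : Ideal (𝓞 (AlgebraicClosure ℚ))) (τ : AbsGal) : Prop :=
  ∀ x : 𝓞 (AlgebraicClosure ℚ), τ • x - x ∈ P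

/-- `LevelTrivial p m n S`: let `A` be a Noetherian local ring of residue characteristic `p`, with its
adic topology, and `ρ` a continuous representation of the absolute Galois group of `ℚ` in `GL_n(A)`
which is trivial on the inertia groups at all maximal ideals which contain no `l ∈ S`, and such that the
entries of `ρ τ - 1` are divisible by `p ^ m` for `τ` in the other inertia groups. Then the image of
`ρ` is finite, and `ρ` is trivial if `p ^ (m + 1) a = 0` implies `p ^ m a = 0` in `A`. -/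
def LevelTrivial (p m n : ℕ) (S : Finset ℕ) : Prop :=
  ∀ (A : Type) [CommRing A] [IsLocalRing A] [IsNoetherianRing A] [TopologicalSpace A],
    IsAdic (maximalIdeal A) → (p : A) ∈ maximalIdeal A →
    ∀ ρ : AbsGal →* GL (Fin n) A, Continuous ρ →
      (∀ P : Ideal (𝓞 (AlgebraicClosure ℚ)), P.IsMaximal →
        (∀ l ∈ S, (l : 𝓞 (AlgebraicClosure ℚ)) ∉ P) → ∀ τ, InInertia P τ → ρ τ = 1) →
      (∀ P : Ideal (𝓞 (AlgebraicClosure ℚ)), P.IsMaximal →
        (∃ l ∈ S, (l : 𝓞 (AlgebraicClosure ℚ)) ∈ P) → ∀ τ, InInertia P τ →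
          ∀ i j, (p : A) ^ m ∣ ((ρ τ : Matrix (Fin n) (Fin n) A) - 1) i j) →
      (Set.range ρ).Finite ∧
        ((∀ a : A, (p : A) ^ (m + 1) * a = 0 → (p : A) ^ m * a = 0) → ∀ g, ρ g = 1)

/-- `TameTrivial p n T`: `LevelTrivial p 1 n S` holds for all finite sets `S` of prime numbers `l ≠ p`
whose members congruent to `1` modulo `p` are in `T`. -/
def TameTrivial (p n : ℕ) (T : Set ℕ) : Prop :=
  ∀ S : Finset ℕ, (∀ l ∈ S, l.Prime ∧ l ≠ p) → (∀ l ∈ S, p ∣ l - 1 → l ∈ T) → LevelTrivial p 1 n S

/-- The linking number `λ l j` of the distinct primes `l` and `j`: the value of the homomorphism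
`χ j : (ℤ/j)ˣ → ℤ/p` at the class of `l` (and `0` if `j` divides `l`, in particular if `l = j`). -/
noncomputable def linking {p : ℕ} (χ : ∀ j : ℕ, (ZMod j)ˣ →* Multiplicative (ZMod p))
    (l j : ℕ) : ZMod p :=
  open Classical in if h : Nat.Coprime l j then
    Multiplicative.toAdd (χ j (ZMod.unitOfCoprime l h)) else 0

/-- The point with `λ i (i + 1) = 1` (indices modulo `4`), `u i = -1` and all other `λ i j` zero. -/
def basePoint : (Fin 4 × Fin 4) ⊕ Fin 4 → ℤ :=
  Sum.elim (fun x => if x.2 = x.1 + 1 then 1 else 0) fun _ => -1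

/-- The linking numbers `λ i j` of the primes `q 0, ..., q 3` and the classes `u i` of
`(q i - 1) / p ^ m` modulo `p`. -/
noncomputable def numbers {p : ℕ} (m : ℕ) (χ : ∀ j : ℕ, (ZMod j)ˣ →* Multiplicative (ZMod p))
    (q : Fin 4 → ℕ) : (Fin 4 × Fin 4) ⊕ Fin 4 → ZMod p :=
  Sum.elim (fun x => linking χ (q x.1) (q x.2)) fun i => (((q i - 1) / p ^ m : ℕ) : ZMod p)

/-- `Criterion n P`: let `p > 2` be a prime with `n < p`, `m ≥ 1`, and `S` a finite set of prime numbers
`l ≠ p` with `p ^ (m + 1) ∤ l - 1`, and let `q 0, ..., q 3` be distinct and such that all `l ∈ S` with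
`p ^ m ∣ l - 1` are among them. If the value of `P` at the linking numbers and the `(q i - 1) / p ^ m`
is not zero in `ℤ/p`, for nontrivial homomorphisms `χ l`, then `LevelTrivial p m n S` holds. -/
def Criterion (n : ℕ) (P : MvPolynomial ((Fin 4 × Fin 4) ⊕ Fin 4) ℤ) : Prop :=
  ∀ (p : ℕ) [Fact p.Prime], 2 < p → n < p → ∀ m : ℕ, 1 ≤ m → ∀ S : Finset ℕ,
    (∀ l ∈ S, l.Prime ∧ l ≠ p ∧ ¬ p ^ (m + 1) ∣ l - 1) → ∀ q : Fin 4 → ℕ, Function.Injective q →
    (∀ l ∈ S, p ^ m ∣ l - 1 → ∃ i, l = q i) →
    ∀ χ : ∀ j : ℕ, (ZMod j)ˣ →* Multiplicative (ZMod p), (∀ l ∈ S, p ∣ l - 1 → ∃ x, χ l x ≠ 1) →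
    MvPolynomial.aeval (numbers m χ q) P ≠ 0 → LevelTrivial p m n S

open Classical in
/-- The primes `q ≤ x` with `p ∣ q - 1`. -/
noncomputable def Pr (p x : ℕ) : Finset ℕ := (range (x + 1)).filter fun q => q.Prime ∧ p ∣ q - 1

open Classical in
/-- `Most p δ R m T`: for all primes `q₁ ≡ 1 mod p`, `q₁ ∉ T`, but a proportion of at most `δ`, for all
primes `q₂ ≡ 1 mod p`, `q₂ ∉ T ∪ {q₁}`, but a proportion of at most `δ`, …, for all primes
`q_m ≡ 1 mod p`, `q_m ∉ T ∪ {q₁, …, q_{m-1}}`, but a proportion of at most `δ`, the set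
`T ∪ {q₁, …, q_m}` has the property `R`. -/
def Most (p : ℕ) (δ : ℝ) (R : Set ℕ → Prop) : ℕ → Set ℕ → Prop
  | 0, T => R T
  | m + 1, T => ∀ ε : ℝ, 0 < ε → ∀ᶠ x : ℕ in atTop, (1 - δ - ε) * ((Pr p x).card : ℝ) ≤
      (((Pr p x).filter fun q => q ∉ T ∧ Most p δ R m (insert q T)).card : ℝ)

theorem Pr_eq (p x : ℕ) [Fact p.Prime] : Pr p x = P1 p x := by
  ext l
  rw [mem_P1, Pr, mem_filter, mem_range]
  constructor
  · rintro ⟨h1, h2, h3⟩
    exact ⟨by omega, h2, h3⟩
  · rintro ⟨h1, h2, h3⟩
    exact ⟨by omega, h2, h3⟩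

section
variable {p : ℕ} [Fact p.Prime]

theorem level_of {n m : ℕ} (hm : 1 ≤ m) (hp2 : 2 < p) (S : Finset ℕ)
    (hS : ∀ l ∈ S, l.Prime ∧ l ≠ p ∧ ¬ p ^ (m + 1) ∣ l - 1)
    (χ : ∀ j : ℕ, (ZMod j)ˣ →* Multiplicative (ZMod p)) (hχ : ∀ l ∈ S, p ∣ l - 1 → ∃ x, χ l x ≠ 1)
    {r : ℕ} (l : Fin r → ℕ) (hli : Function.Injective l)
    (hl : ∀ q ∈ S, p ^ m ∣ q - 1 → q ∈ Set.range l)
    (h : NoSol n (fun i j => lk χ (l i) (l j)) (fun i => (((l i - 1) / p ^ m : ℕ) : ZMod p))) :
    LevelTrivial p m n S := by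
  have hp : p.Prime := Fact.out
  intro A _ _ _ _ hA hpA ρ hρ hur hI
  exact Pool.Agent.Results.MP_924d78_nt.AllDimensions.result p m n
    (lt_of_lt_of_le hp2 (Nat.le_self_pow (by omega) p)) S hS χ hχ
    (fun J hJ hJ1 hJ3 _ => noTuple_of m χ l hli h J
      (fun q hq => hl q (hJ hq) (hJ1 q hq)) (card_pos.1 (by omega)))
    A hA hpA ρ hρ (fun P hP hSP τ hτ => hur P hP hSP τ hτ)
    (fun P hP hSP τ hτ i j => hI P hP hSP τ hτ i j)

theorem good_of (hp2 : 2 < p) {n : ℕ} (χ : ∀ j : ℕ, (ZMod j)ˣ →* Multiplicative (ZMod p))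
    (hχ : Kr χ) {r : ℕ} (l : Fin r → ℕ) (hli : Function.Injective l)
    (hG : ¬ Bad n r (N829.QD.dat χ l)) : TameTrivial p n (Set.range l) := by
  have hp : p.Prime := Fact.out
  unfold Bad at hG
  push Not at hG
  obtain ⟨g1, g2⟩ := hG
  have hsq : ∀ q ∈ Set.range l, ¬ p ^ 2 ∣ q - 1 := by
    rintro q ⟨i, rfl⟩ h
    apply g1 i
    show lv p (l i) = 0
    unfold lv
    rw [ZMod.natCast_eq_zero_iff]
    obtain ⟨m, hm⟩ := h
    refine ⟨m, ?_⟩
    rw [hm, pow_two, mul_assoc, Nat.mul_div_cancel_left _ hp.pos]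
  intro S hS hT
  have hS' : ∀ q ∈ S, q.Prime ∧ q ≠ p ∧ ¬ p ^ (1 + 1) ∣ q - 1 := by
    intro q hq
    refine ⟨(hS q hq).1, (hS q hq).2, fun h => ?_⟩
    exact hsq q (hT q hq ((dvd_pow_self p two_ne_zero).trans h)) h
  refine level_of le_rfl hp2 S hS' χ (fun q hq hpq => (hχ q (hS q hq).1 hpq).1) l hli
    (fun q hq h => hT q hq (by simpa using h)) ?_
  have e : (fun i => (((l i - 1) / p ^ 1 : ℕ) : ZMod p)) = fun i => lv p (l i) := by
    funext i
    unfold lv
    rw [pow_one]
  rw [e]
  exact g2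

theorem most_of (hp2 : 2 < p) {n : ℕ} (χ : ∀ j : ℕ, (ZMod j)ˣ →* Multiplicative (ZMod p))
    (hχ : Kr χ) {η δ : ℝ} (hη : 0 < η) (hδ : η + 1 / p ≤ δ) (m : ℕ) : ∀ (k : ℕ) (l : Fin k → ℕ),
      (∀ i, (l i).Prime) → (∀ i, p ∣ l i - 1) → Function.Injective l →
      N829.QD.GdN (Bad n) η m k (N829.QD.dat χ l) → Most p δ (TameTrivial p n) m (Set.range l) := by
  classical
  have hp : p.Prime := Fact.out
  have hp0 : (0 : ℝ) < p := by exact_mod_cast hp.pos
  have hp1 : (1 : ℝ) ≤ p := by exact_mod_cast hp.one_lt.le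
  induction m with
  | zero =>
    intro k l hl hpl hli hG
    exact good_of hp2 χ hχ l hli (gd_zero hG)
  | succ m ih =>
    intro k l hl hpl hli hG ε hε
    have hst := N829.QD.gd_step hη hG
    obtain ⟨Good, hGood⟩ : ∃ G : (Fin (k + 1) → ZMod p) → (Fin (k + 1) → ZMod p) → Prop,
        G = fun w s => w ≠ 0 ∧ N829.QD.GdN (Bad n) η m (k + 1) (ext (N829.QD.dat χ l) w s) :=
      ⟨_, rfl⟩
    have hst' : (1 - η) * ((p : ℝ) ^ (k + 1) * (p : ℝ) ^ (k + 1)) - (p : ℝ) ^ (k + 1) ≤
        ((∑ w : Fin (k + 1) → ZMod p,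
          ((univ : Finset (Fin (k + 1) → ZMod p)).filter fun s => Good w s).card : ℕ) : ℝ) := by
      subst hGood
      convert hst
    have hd := densN (p := p) (by omega) χ hχ l hl hpl hli Good
      (fun w s h => by rw [hGood] at h; exact h.1) (fun w s c hc h => by
        rw [hGood] at h ⊢
        refine ⟨fun h0 => h.1 (by
          funext j
          exact (mul_eq_zero.1 (congrFun h0 j)).resolve_left hc), ?_⟩
        unfold N829.QD.GdN
        rw [N829.QD.Nb_wsc (bad_scInv n) m k hc]
        exact h.2) (1 - δ) (by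
        have : (0 : ℝ) < 1 / p := by positivity
        linarith) (by
        rw [le_div_iff₀ (by
          have : 0 < Fintype.card (Fin (k + 1) → ZMod p) := Fintype.card_pos
          positivity), Fintype.card_fun, ZMod.card, Fintype.card_fin]
        refine le_trans ?_ (hst'.trans (le_of_eq (by congr!)))
        push_cast
        have h1 : (0 : ℝ) < (p : ℝ) ^ (k + 1) := by positivity
        have h2 : (p : ℝ) ^ (k + 1) * 1 ≤ (p : ℝ) ^ (k + 1) * ((1 / p) * (p : ℝ) ^ (k + 1)) := by
          refine mul_le_mul_of_nonneg_left ?_ h1.le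
          rw [pow_succ, one_div, mul_comm ((p : ℝ) ^ k), inv_mul_cancel_left₀ hp0.ne']
          exact one_le_pow₀ hp1
        have h3 : (1 - δ) * ((p : ℝ) ^ (k + 1) * (p : ℝ) ^ (k + 1)) ≤
            (1 - η - 1 / p) * ((p : ℝ) ^ (k + 1) * (p : ℝ) ^ (k + 1)) :=
          mul_le_mul_of_nonneg_right (by linarith) (by positivity)
        linarith) ε hε
    filter_upwards [hd] with x hx
    rw [Pr_eq]
    refine le_trans hx (Nat.cast_le.2 (card_le_card ?_))
    intro q hq
    obtain ⟨h1, h2, h34⟩ := (@Finset.mem_filter _ _ _ _ _).1 hq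
    rw [hGood] at h34
    obtain ⟨h3, h4⟩ := h34
    obtain ⟨-, hqp, hpq⟩ := mem_P1.1 h1
    simp only [Finset.mem_filter]
    refine ⟨h1, fun ⟨i, hi⟩ => h2 i hi.symm, ?_⟩
    rw [← Fin.range_cons]
    refine ih (k + 1) (Fin.cons q l) ?_ ?_ ?_ ?_
    · intro i
      refine Fin.cases ?_ (fun j => ?_) i
      · exact hqp
      · exact hl j
    · intro i
      refine Fin.cases ?_ (fun j => ?_) i
      · exact hpq
      · exact hpl j
    · rw [Fin.cons_injective_iff]
      exact ⟨fun ⟨i, hi⟩ => h2 i hi.symm, hli⟩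
    · rw [N829.QD.dat_cons χ l hqp]
      exact h4

end

theorem alg : ALG :=
  N829.QD.alg N829.QD.hig N829.QD.sem N829.QD.low N829.QD.chg N829.QD.pen N829.QD.trn

theorem most (n : ℕ) (δ : ℝ) (hδ : 0 < δ) :
    ∃ p₀ : ℕ, ∀ (p : ℕ) [Fact p.Prime], p₀ ≤ p → Most p δ (TameTrivial p n) 4 ∅ := by
  classical
  obtain ⟨d, c, hc, hdc⟩ := bad_card alg N829.QD.cnt n
  obtain ⟨B, hB⟩ := exists_nat_gt ((d : ℝ) / (δ / 2) ^ 4 + 2 / δ)
  refine ⟨n + 3 + c + 1 + B, ?_⟩
  intro p _ hp0
  have hp : p.Prime := Fact.out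
  have hpp : (0 : ℝ) < p := by exact_mod_cast hp.pos
  have hBp : (B : ℝ) ≤ p := by
    have : B ≤ p := by omega
    exact_mod_cast this
  have hpc : ¬ p ∣ c := fun h => by
    have := Nat.le_of_dvd (Nat.pos_of_ne_zero hc) h
    omega
  have hcard := hdc p (by omega) (by omega) hpc
  obtain ⟨χ, hχ, -⟩ := extend (p := p) (fun _ => 1) ∅ (fun j hj => absurd hj (Set.notMem_empty j))
  have hd2 : (0 : ℝ) < (δ / 2) ^ 4 := by positivity
  have h1 : (d : ℝ) < (δ / 2) ^ 4 * p := by
    have h2 : (d : ℝ) / (δ / 2) ^ 4 < p := by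
      have : (0 : ℝ) < 2 / δ := by positivity
      linarith
    rwa [div_lt_iff₀ hd2, mul_comm] at h2
  have h3 : 1 / (p : ℝ) ≤ δ / 2 := by
    have h4 : 2 / δ < p := by
      have : (0 : ℝ) ≤ (d : ℝ) / (δ / 2) ^ 4 := by positivity
      linarith
    rw [div_lt_iff₀ hδ] at h4
    rw [div_le_div_iff₀ hpp (by norm_num)]
    linarith
  have hG : N829.QD.GdN (p := p) (Bad n) (δ / 2) 4 0 (N829.QD.dat χ (Fin.elim0 : Fin 0 → ℕ)) := by
    refine N829.QD.gd_init ?_ _
    have h5 : ((((Z p 4).filter fun D => Bad n 4 D).card : ℕ) : ℝ) ≤ d * (p : ℝ) ^ 19 := by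
      exact_mod_cast hcard
    refine lt_of_le_of_lt h5 ?_
    calc (d : ℝ) * (p : ℝ) ^ 19 < ((δ / 2) ^ 4 * p) * (p : ℝ) ^ 19 :=
          mul_lt_mul_of_pos_right h1 (by positivity)
      _ = (δ / 2) ^ 4 * (p : ℝ) ^ (4 ^ 2 + 4) := by ring
  have := most_of (p := p) (n := n) (by omega) χ hχ (η := δ / 2) (δ := δ) (by positivity)
    (by linarith) 4 0 (Fin.elim0 : Fin 0 → ℕ) (fun i => i.elim0) (fun i => i.elim0)
    (fun i => i.elim0) hG
  rwa [Set.range_eq_empty] at this

/-- **Four tame primes, all dimensions.** For every `n` there is an integral polynomial `P`, not zero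
at the base point, such that `Criterion n P` holds; and for every `δ > 0` and all large `p` the tame
conjecture holds in dimension `n`, for representations trivial modulo `p` on inertia, for all
quadruples of primes but a proportion of `δ`. -/
theorem result (n : ℕ) :
    (∃ P : MvPolynomial ((Fin 4 × Fin 4) ⊕ Fin 4) ℤ, MvPolynomial.eval basePoint P ≠ 0 ∧
      Criterion n P) ∧
    ∀ δ : ℝ, 0 < δ → ∃ p₀ : ℕ, ∀ (p : ℕ) [Fact p.Prime], p₀ ≤ p →
      Most p δ (TameTrivial p n) 4 ∅ := by
  refine ⟨?_, most n⟩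
  obtain ⟨P, hP0, hP⟩ := alg n
  refine ⟨P, ?_, ?_⟩
  · have e : basePoint = pt (L0 ℤ) (U0 ℤ) := by
      funext i
      rcases i with i | i <;> rfl
    rw [e]
    exact hP0
  · intro p _ hp2 hnp m hm S hS q hq hSq χ hχ hne
    refine level_of hm hp2 S hS χ hχ q hq (fun l hl h => ?_) (hP p hnp hp2 _ _ ?_)
    · obtain ⟨i, hi⟩ := hSq l hl h
      exact ⟨i, hi.symm⟩
    · have e : numbers m χ q = pt (fun i j => lk χ (q i) (q j))
          (fun i => (((q i - 1) / p ^ m : ℕ) : ZMod p)) := by
        funext i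
        rcases i with i | i <;> rfl
      rw [← e]
      exact hne

end Pool.Agent.Results.MP_f68ac8_nt.FourPrimes
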