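import Pool.Agent.N829.PW.Rat
import Pool.Agent.N829.PW.Max

/-!
# Tame representations of all dimensions for three ramified primes

Let `p` be an odd prime and let `a`, `b`, `c` be distinct primes which are `1` modulo `p`. For
nontrivial characters `χ j : (ℤ/j)ˣ → ℤ/p`, `j = a, b, c`, let `λ l j = χ j (l)` be the linking
numbers. Suppose that

* `λ a c * λ b a * λ c b ≠ λ a b * λ b c * λ c a`, and
* `(a, b, c)` is not exceptional. The triple is exceptional if for some `m` the numbers `a - 1`,
  `b - 1`, `c - 1` are divisible by `p ^ m` and not by `p ^ (m + 1)`, and the three numbers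
  `u i * λ j k + u j * λ i k`, `{i, j, k} = {a, b, c}`, all vanish, where `u l = (l - 1) / p ^ m`.

Then the Galois group of the maximal `p`-extension of `ℚ` unramified outside `a`, `b`, `c` (and
primes not congruent to `0` or `1` modulo `p`, which can not ramify) is finite; it has at most
`p ^ (24 M + 12)` elements if `p ^ (M + 1)` does not divide `a - 1`, `b - 1`, `c - 1`. So all
continuous residually unipotent representations of the absolute Galois group of `ℚ`, of any
dimension and over any Noetherian local ring of residue characteristic `p` (for example the ring of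
integers of a finite extension of `ℚ_p`), which are unramified at `p` and at the primes
`l ≡ 1` modulo `p`, `l ≠ a, b, c`, factor through one finite group of at most this order.

Proof. Let `G` be a finite quotient of the Galois group. The tame relations `[σ_l, τ_l] =
τ_l ^ (l - 1)` and the first condition show that every alternating form on `G / G ^ p [G, G]`
induced by commutators modulo `p`-th powers vanishes; so `G` is a powerful `p`-group. If the order
of `G` is large, then the power maps between the successive quotients of the lower `p`-central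
series are isomorphisms on a long interval, which gives a free `ℤ/p^k`-module `F_j / F_(j+k)` with
an action of `G`. The first nonzero term of this action is an alternating algebra structure `β` on
a quotient `W` of `G / G ^ p [G, G]`, nonzero because `p ^ (M + 1)` does not divide `l - 1`,
unimodular because the determinant of the action is trivial modulo `p`, and with
`β (σ_l, τ_l) = ((l - 1) / p ^ s) τ_l`. There is no such structure by the second condition.
-/

set_option autoImplicit false

open NumberField IsLocalRing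

namespace Pool.Agent.Results.MP_f68ac8_nt.ThreeTamePrimes

/-- the absolute Galois group of `ℚ`, with the Krull topology -/
abbrev AbsGal : Type := Gal(AlgebraicClosure ℚ/ℚ)

/-- `τ` lies in the inertia group at the ideal `P` of the ring of all algebraic integers. -/
def InInertia (P : Ideal (𝓞 (AlgebraicClosure ℚ))) (τ : AbsGal) : Prop :=
  ∀ x : 𝓞 (AlgebraicClosure ℚ), τ • x - x ∈ P

/-- `ρ` is trivial on the inertia groups at all primes above `p` and above all prime numbers
`l` with `p ∣ l - 1` that are not in `T`. -/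
def UnramifiedOutside (p : ℕ) (T : Set ℕ) {E : Type} [Group E] (ρ : AbsGal →* E) : Prop :=
  ∀ P : Ideal (𝓞 (AlgebraicClosure ℚ)), P.IsMaximal → ∀ l : ℕ, l.Prime →
    (l : 𝓞 (AlgebraicClosure ℚ)) ∈ P → (l = p ∨ (p ∣ l - 1 ∧ l ∉ T)) →
    ∀ τ, InInertia P τ → ρ τ = 1

/-- The reductions of all `ρ g - 1` are nilpotent. -/
def ResiduallyUnipotent {n : ℕ} {A : Type} [CommRing A] [IsLocalRing A]
    (ρ : AbsGal →* GL (Fin n) A) : Prop :=
  ∀ g, ∃ M : ℕ, ∀ i j, (((ρ g : Matrix (Fin n) (Fin n) A) - 1) ^ M) i j ∈ maximalIdeal A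

/-- The linking number `λ l j` of the distinct primes `l` and `j`: the value of the homomorphism
`χ j : (ℤ/j)ˣ → ℤ/p` at the class of `l` (and `0` if `l` and `j` are not coprime). -/
noncomputable def linking {p : ℕ} (χ : ∀ j : ℕ, (ZMod j)ˣ →* Multiplicative (ZMod p))
    (l j : ℕ) : ZMod p :=
  open Classical in if h : Nat.Coprime l j then
    Multiplicative.toAdd (χ j (ZMod.unitOfCoprime l h)) else 0

/-- The class of `(l - 1) / p ^ m` modulo `p`. -/
def level (p m l : ℕ) : ZMod p := (((l - 1) / p ^ m : ℕ) : ZMod p)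

/-- `p ^ m` is the exact power of `p` which divides `l - 1`. -/
def HasLevel (p m l : ℕ) : Prop := p ^ m ∣ l - 1 ∧ ¬ p ^ (m + 1) ∣ l - 1

/-- The exceptional triples: the exact power of `p` which divides `a - 1`, `b - 1` and `c - 1` is
the same number `p ^ m`, and with `u l = (l - 1) / p ^ m` the numbers
`u b * λ a c + u a * λ b c`, `u c * λ a b + u a * λ c b` and `u c * λ b a + u b * λ c a` vanish
modulo `p`. -/
def Exceptional {p : ℕ} (χ : ∀ j : ℕ, (ZMod j)ˣ →* Multiplicative (ZMod p)) (a b c : ℕ) : Prop :=
  ∃ m : ℕ, (HasLevel p m a ∧ HasLevel p m b ∧ HasLevel p m c) ∧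
    level p m b * linking χ a c + level p m a * linking χ b c = 0 ∧
    level p m c * linking χ a b + level p m a * linking χ c b = 0 ∧
    level p m c * linking χ b a + level p m b * linking χ c a = 0

theorem result (p : ℕ) [Fact p.Prime] (hp2 : p ≠ 2)
    (χ : ∀ j : ℕ, (ZMod j)ˣ →* Multiplicative (ZMod p)) (a b c : ℕ)
    (ha : a.Prime ∧ p ∣ a - 1) (hb : b.Prime ∧ p ∣ b - 1) (hc : c.Prime ∧ p ∣ c - 1)
    (hab : a ≠ b) (hac : a ≠ c) (hbc : b ≠ c)
    (hΔ : linking χ a c * linking χ b a * linking χ c b ≠
      linking χ a b * linking χ b c * linking χ c a)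
    (hexc : ¬ Exceptional χ a b c) (M : ℕ)
    (hM : ¬ p ^ (M + 1) ∣ a - 1 ∧ ¬ p ^ (M + 1) ∣ b - 1 ∧ ¬ p ^ (M + 1) ∣ c - 1) :
    ∃ N : Subgroup AbsGal, N.Normal ∧ IsOpen (N : Set AbsGal) ∧ N.index ≤ p ^ (24 * M + 12) ∧
      ∀ (n : ℕ) (A : Type) [CommRing A] [IsLocalRing A] [IsNoetherianRing A] [TopologicalSpace A],
        IsAdic (maximalIdeal A) → (p : A) ∈ maximalIdeal A →
        ∀ ρ : AbsGal →* GL (Fin n) A, Continuous ρ → ResiduallyUnipotent ρ →
          UnramifiedOutside p {a, b, c} ρ → ∀ g ∈ N, ρ g = 1 := by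
  classical
  have hp : p.Prime := Fact.out
  have hinj : Function.Injective ![a, b, c] := by
    intro i j hij
    fin_cases i <;> fin_cases j
    · rfl
    · exact absurd hij hab
    · exact absurd hij hac
    · exact absurd hij.symm hab
    · rfl
    · exact absurd hij hbc
    · exact absurd hij.symm hac
    · exact absurd hij.symm hbc
    · rfl
  have hall : ∀ i, (![a, b, c] i).Prime ∧ p ∣ ![a, b, c] i - 1 := by
    rw [Fin.forall_fin_succ, Fin.forall_fin_two]
    exact ⟨ha, hb, hc⟩
  let t : Pool.Agent.N829.PW.Tri p χ :=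
    { l := ![a, b, c]
      inj := hinj
      hl := hall
      lam := fun i j => linking χ (![a, b, c] i) (![a, b, c] j)
      hlam := fun i j hij x hx => by
        have hco : Nat.Coprime (![a, b, c] i) (![a, b, c] j) :=
          (Nat.coprime_primes (hall i).1 (hall j).1).2 (hinj.ne hij)
        unfold linking
        rw [dif_pos hco]
        congr 2
        apply Units.ext
        rw [ZMod.coe_unitOfCoprime, hx]
      hΔ := sub_ne_zero.2 hΔ
      hu := fun s hs hd hnd u hu e1 e2 e3 => by
        apply hexc
        have h0 : u 0 = level p s a := hu 0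
        have h1 : u 1 = level p s b := hu 1
        have h2 : u 2 = level p s c := hu 2
        rw [h0, h1] at e1
        rw [h0, h2] at e2
        rw [h1, h2] at e3
        exact ⟨s, ⟨⟨hd 0, hnd 0⟩, ⟨hd 1, hnd 1⟩, ⟨hd 2, hnd 2⟩⟩, e1, e2, e3⟩ }
  have hM' : ∀ i, ¬ p ^ (M + 1) ∣ t.l i - 1 := by
    rw [Fin.forall_fin_succ, Fin.forall_fin_two]
    exact hM
  have hT : ∀ l, l ∈ t.T ↔ l ∈ ({a, b, c} : Set ℕ) := by
    intro l
    show l ∈ Finset.univ.image ![a, b, c] ↔ _
    simp only [Finset.mem_image, Finset.mem_univ, true_and, Set.mem_insert_iff,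
      Set.mem_singleton_iff]
    rw [Fin.exists_fin_succ, Fin.exists_fin_two]
    exact ⟨fun h => by
      rcases h with h | h | h
      · exact Or.inl h.symm
      · exact Or.inr (Or.inl h.symm)
      · exact Or.inr (Or.inr h.symm), fun h => by
      rcases h with h | h | h
      · exact Or.inl h.symm
      · exact Or.inr (Or.inl h.symm)
      · exact Or.inr (Or.inr h.symm)⟩
  obtain ⟨N, hN1, hN2, hN3, hN4⟩ := Pool.Agent.N829.PW.exists_max_rho (K := ℚ) (p := p)
    (S := Pool.Agent.N829.PW.SQ p t.T) (B := (p ^ 3) ^ (4 * (2 * M + 1)))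
    (fun E _ _ hE f hfs hfo hur => Pool.Agent.N829.PW.tri_fin hp2 t hM' hE f hfs hfo hur)
  refine ⟨N, hN1, hN2, hN3.trans (le_of_eq ?_), ?_⟩
  · rw [← pow_mul]
    congr 1
    ring
  · intro n A _ _ _ _ hA hpA ρ hρ hres hur g hg
    refine hN4 n A ρ hpA (fun i => Pool.Agent.TH831.NA.cts_memN hA hρ i)
      (fun g => (hres g).imp fun M h => h) ?_ g hg
    refine Pool.Agent.N829.PW.ur_of ρ fun P hP l hl hlP h τ hτ => ?_
    refine hur P hP l hl hlP ?_ τ hτ
    rcases h with h | ⟨h1, h2⟩
    · exact Or.inl h
    · exact Or.inr ⟨h1, fun h3 => h2 ((hT l).2 h3)⟩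

end Pool.Agent.Results.MP_f68ac8_nt.ThreeTamePrimes
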